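import Mathlib

/-!
# Generator pairs of the square complex groups `G_X` are anti-tori

For an abelian group `X` the group `G_X` has generators `a i`, `x j` (`i j : X`) and relations
`a i * x j = x (i + j) * a (i - j)`.  We show that for `(i, j) ≠ (0, 0)` no nonzero power of
`a i` commutes with a nonzero power of `x j`.

The proof: let `R` be the square zero extension `ℤ ⊕ X` and let `w` be the variable of `R[w]`.
In the total ring of fractions `Q` of `R[w]` the elements `w`, `1 + w`, `1 - w` are units, and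
`G_X` acts on `Q` by homotheties: `a i` has centre `- w i` and ratio `(1 + w) / w`, and `x j` has
centre `j` and ratio `1 / (1 - w)`.
-/

namespace Pool.Agent.Results.MP_216313_al.AntiTorus

/-- The oriented loops of the square complex: the vertical loops `a i` and the horizontal
loops `x j`, for `i j : X`. -/
inductive Loop (X : Type*) : Type _
  | a (i : X) : Loop X
  | x (j : X) : Loop X

/-- The boundary words `a_i x_j (a_{i-j})⁻¹ (x_{i+j})⁻¹` of the squares, one for each pair
`(i, j)`. -/
def squares (X : Type*) [AddCommGroup X] : Set (FreeGroup (Loop X)) :=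
  {r | ∃ i j : X, r = FreeGroup.of (Loop.a i) * FreeGroup.of (Loop.x j) *
    (FreeGroup.of (Loop.a (i - j)))⁻¹ * (FreeGroup.of (Loop.x (i + j)))⁻¹}

/-- The fundamental group `G_X` of the square complex, given by its presentation. -/
abbrev G (X : Type*) [AddCommGroup X] : Type _ := PresentedGroup (squares X)

/-- The generator `a_i` of `G_X`. -/
def a {X : Type*} [AddCommGroup X] (i : X) : G X := PresentedGroup.of (Loop.a i)

/-- The generator `x_j` of `G_X`. -/
def x {X : Type*} [AddCommGroup X] (j : X) : G X := PresentedGroup.of (Loop.x j)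

/-- Two elements `g`, `h` of a group generate an anti-torus if no nonzero power of `g` commutes
with a nonzero power of `h`. -/
def GenAntiTorus {H : Type*} [Group H] (g h : H) : Prop :=
  ∀ p q : ℤ, p ≠ 0 → q ≠ 0 → g ^ p * h ^ q ≠ h ^ q * g ^ p

/-- The defining relation, as a check of the definitions. -/
theorem a_mul_x {X : Type*} [AddCommGroup X] (i j : X) :
    a i * x j = x (i + j) * a (i - j) := by
  have h' : a i * x j * (a (i - j))⁻¹ * (x (i + j))⁻¹ = 1 :=
    PresentedGroup.one_of_mem (rels := squares X) ⟨i, j, rfl⟩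
  rw [mul_inv_eq_one, mul_inv_eq_iff_eq_mul] at h'
  exact h'

/-! ### Homotheties of a commutative ring -/

section Homothety

variable {Q : Type*} [CommRing Q]

/-- The homothety of `Q` with centre `c` and ratio the unit `s`. -/
def hom (c : Q) (s : Qˣ) : Equiv.Perm Q where
  toFun m := s * (m - c) + c
  invFun m := (s⁻¹ : Qˣ) * (m - c) + c
  left_inv m := by
    have : ((s⁻¹ : Qˣ) : Q) * s = 1 := by simp
    linear_combination (m - c) * this
  right_inv m := by
    have : (s : Q) * ((s⁻¹ : Qˣ) : Q) = 1 := by simp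
    linear_combination (m - c) * this

theorem hom_apply (c : Q) (s : Qˣ) (m : Q) : hom c s m = s * (m - c) + c := rfl

theorem hom_mul (c : Q) (s t : Qˣ) : hom c s * hom c t = hom c (s * t) := by
  ext m
  simp only [Equiv.Perm.coe_mul, Function.comp_apply, hom_apply, Units.val_mul]
  ring

theorem hom_one (c : Q) : hom c (1 : Qˣ) = 1 := by
  ext m
  simp [hom_apply]

/-- Homotheties with a fixed centre form a group. -/
def homHom (c : Q) : Qˣ →* Equiv.Perm Q where
  toFun s := hom c s
  map_one' := hom_one c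
  map_mul' s t := (hom_mul c s t).symm

theorem hom_zpow (c : Q) (s : Qˣ) (n : ℤ) : hom c s ^ n = hom c (s ^ n) :=
  (map_zpow (homHom c) s n).symm

/-- If two homotheties commute then either they have the same centre or one of the ratios is
`1`, in the form of the vanishing of a product. -/
theorem eq_zero_of_commute {c d : Q} {s t : Qˣ} (h : hom c s * hom d t = hom d t * hom c s) :
    ((s : Q) - 1) * ((t : Q) - 1) * (d - c) = 0 := by
  have h1 := congrArg (fun f : Equiv.Perm Q => f d) h
  simp only [Equiv.Perm.coe_mul, Function.comp_apply, hom_apply] at h1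
  linear_combination -h1

end Homothety

/-! ### The representation -/

section Rep

variable {X : Type*} [AddCommGroup X] {Q : Type*} [CommRing Q]

/-- The images of the generators: `a i` is the homothety with centre `- w i` and ratio `s`,
`x j` is the homothety with centre `j` and ratio `t`. -/
def repFun (φ : X →+ Q) (w : Q) (s t : Qˣ) : Loop X → Equiv.Perm Q
  | Loop.a i => hom (-(w * φ i)) s
  | Loop.x j => hom (φ j) t

theorem repFun_rel (φ : X →+ Q) (w : Q) (s t : Qˣ) (hs : w * (s : Q) = 1 + w)
    (ht : (1 - w) * (t : Q) = 1) :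
    ∀ r ∈ squares X, FreeGroup.lift (repFun φ w s t) r = 1 := by
  rintro r ⟨i, j, rfl⟩
  simp only [map_mul, map_inv, FreeGroup.lift_apply_of, repFun]
  rw [mul_inv_eq_one, mul_inv_eq_iff_eq_mul]
  ext m
  simp only [Equiv.Perm.coe_mul, Function.comp_apply, hom_apply, map_add, map_sub]
  linear_combination (φ i * (1 - t)) * hs - (φ j * (s - 1)) * ht

/-- The representation of `G_X` by homotheties. -/
def rep (φ : X →+ Q) (w : Q) (s t : Qˣ) (hs : w * (s : Q) = 1 + w)
    (ht : (1 - w) * (t : Q) = 1) : G X →* Equiv.Perm Q :=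
  PresentedGroup.toGroup (repFun_rel φ w s t hs ht)

theorem rep_a (φ : X →+ Q) (w : Q) (s t : Qˣ) (hs : w * (s : Q) = 1 + w)
    (ht : (1 - w) * (t : Q) = 1) (i : X) :
    rep φ w s t hs ht (a i) = hom (-(w * φ i)) s :=
  PresentedGroup.toGroup.of _

theorem rep_x (φ : X →+ Q) (w : Q) (s t : Qˣ) (hs : w * (s : Q) = 1 + w)
    (ht : (1 - w) * (t : Q) = 1) (j : X) :
    rep φ w s t hs ht (x j) = hom (φ j) t :=
  PresentedGroup.toGroup.of _

/-- If powers of `a i` and `x j` commute, then a product vanishes in `Q`. -/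
theorem prod_eq_zero (φ : X →+ Q) (w : Q) (s t : Qˣ) (hs : w * (s : Q) = 1 + w)
    (ht : (1 - w) * (t : Q) = 1) {i j : X} {p q : ℕ}
    (h : a i ^ p * x j ^ q = x j ^ q * a i ^ p) :
    ((1 + w) ^ p - w ^ p) * (1 - (1 - w) ^ q) * (φ j + w * φ i) = 0 := by
  have h1 := congrArg (rep φ w s t hs ht) h
  rw [map_mul, map_mul, map_pow, map_pow, rep_a, rep_x, ← zpow_natCast, ← zpow_natCast,
    hom_zpow, hom_zpow] at h1
  have h2 := eq_zero_of_commute h1
  rw [zpow_natCast, zpow_natCast, Units.val_pow_eq_pow_val, Units.val_pow_eq_pow_val] at h2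
  have hs' : w ^ p * (s : Q) ^ p = (1 + w) ^ p := by rw [← mul_pow, hs]
  have ht' : (1 - w) ^ q * (t : Q) ^ q = 1 := by rw [← mul_pow, ht, one_pow]
  have h3 := congrArg (fun z => w ^ p * (1 - w) ^ q * z) h2
  simp only [mul_zero] at h3
  linear_combination h3 - (1 - w) ^ q * ((t : Q) ^ q - 1) * (φ j + w * φ i) * hs'
    - ((1 + w) ^ p - w ^ p) * (φ j + w * φ i) * ht'

end Rep

/-! ### The total ring of fractions -/

section Fractions

open Polynomial nonZeroDivisors

variable {R : Type*} [CommRing R]

theorem natDegree_one_sub_X_pow_le (q : ℕ) : ((1 - X : R[X]) ^ q).natDegree ≤ q := by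
  refine natDegree_pow_le_of_le q (m := 1) ?_ |>.trans (by simp)
  refine (natDegree_sub_le _ _).trans ?_
  simp [natDegree_X_le]

theorem coeff_one_sub_X_pow_self (q : ℕ) : ((1 - X : R[X]) ^ q).coeff q = (-1) ^ q := by
  have h : (1 - X : R[X]).natDegree ≤ 1 := by
    refine (natDegree_sub_le _ _).trans ?_
    simp [natDegree_X_le]
  have := coeff_pow_of_natDegree_le h (m := q)
  simpa [coeff_X, coeff_one] using this

theorem mem_nzd_one {q : ℕ} (hq : q ≠ 0) : (1 - (1 - X : R[X]) ^ q) ∈ R[X]⁰ := by
  apply mem_nonzeroDivisors_of_coeff_mem q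
  rw [coeff_sub, coeff_one_sub_X_pow_self, coeff_one, if_neg hq, zero_sub]
  exact (((isUnit_one.neg (α := R)).pow q).neg).mem_nonZeroDivisors

theorem mem_nzd_two {p : ℕ} (hp : p ≠ 0) : ((1 + X : R[X]) ^ p - X ^ p) ∈ R[X]⁰ := by
  apply mem_nonzeroDivisors_of_coeff_mem 0
  simp [coeff_zero_eq_eval_zero, hp]

theorem mem_nzd_one_add : (1 + X : R[X]) ∈ R[X]⁰ := by
  apply mem_nonzeroDivisors_of_coeff_mem 0
  simp [coeff_zero_eq_eval_zero]

theorem mem_nzd_one_sub : (1 - X : R[X]) ∈ R[X]⁰ := by
  apply mem_nonzeroDivisors_of_coeff_mem 0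
  simp [coeff_zero_eq_eval_zero]

end Fractions

/-- No positive power of `a i` commutes with a positive power of `x j`. -/
theorem natural {X : Type*} [AddCommGroup X] (i j : X) (hij : (i, j) ≠ (0, 0)) (p q : ℕ)
    (hp : p ≠ 0) (hq : q ≠ 0) : a i ^ p * x j ^ q ≠ x j ^ q * a i ^ p := by
  intro h
  let _ : Module ℤᵐᵒᵖ X := Module.compHom X ((RingHom.id ℤ).fromOpposite fun _ _ => mul_comm _ _)
  have _ : IsCentralScalar ℤ X := ⟨fun _ _ => rfl⟩
  let R := TrivSqZeroExt ℤ X
  let Q := FractionRing (Polynomial R)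
  let f : Polynomial R →+* Q := algebraMap (Polynomial R) Q
  let κ : X →+ Polynomial R :=
    (Polynomial.C : R →+* Polynomial R).toAddMonoidHom.comp
      (TrivSqZeroExt.inrHom ℤ X).toAddMonoidHom
  have unit_of : ∀ P ∈ nonZeroDivisors (Polynomial R), IsUnit (f P) := fun P hP =>
    IsLocalization.map_units Q (⟨P, hP⟩ : nonZeroDivisors (Polynomial R))
  obtain ⟨uw, huw⟩ := unit_of _ Polynomial.X_mem_nonzeroDivisors
  obtain ⟨u1, hu1⟩ := unit_of _ mem_nzd_one_add
  obtain ⟨u2, hu2⟩ := unit_of _ mem_nzd_one_sub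
  have hs : f Polynomial.X * ((u1 * uw⁻¹ : Qˣ) : Q) = 1 + f Polynomial.X := by
    rw [← huw, Units.val_mul, mul_comm, mul_assoc, Units.inv_mul, mul_one, hu1, map_add, map_one,
      huw]
  have ht : (1 - f Polynomial.X) * ((u2⁻¹ : Qˣ) : Q) = 1 := by
    rw [← map_one f, ← map_sub, ← hu2, Units.mul_inv, map_one]
  have h1 := prod_eq_zero (f.toAddMonoidHom.comp κ) (f Polynomial.X) (u1 * uw⁻¹) u2⁻¹ hs ht h
  have h2 : f (((1 + Polynomial.X) ^ p - Polynomial.X ^ p) * (1 - (1 - Polynomial.X) ^ q) *
      (κ j + Polynomial.X * κ i)) = 0 := by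
    rw [← h1]
    simp only [map_mul, map_sub, map_add, map_pow, map_one]
    rfl
  have h3 := (map_eq_zero_iff f (IsFractionRing.injective (Polynomial R) Q)).1 h2
  have h4 : κ j + Polynomial.X * κ i = 0 :=
    (mem_nonZeroDivisors_iff.1 (mul_mem (mem_nzd_two hp) (mem_nzd_one hq))).1 _ h3
  have h5 : (TrivSqZeroExt.inr j : R) = 0 := by
    have := congrArg (fun P => Polynomial.coeff P 0) h4
    simpa [κ] using this
  have h6 : (TrivSqZeroExt.inr i : R) = 0 := by
    have := congrArg (fun P => Polynomial.coeff P 1) h4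
    simpa [κ, Polynomial.coeff_C] using this
  apply hij
  rw [Prod.mk.injEq]
  exact ⟨TrivSqZeroExt.inr_injective (R := ℤ) (by simpa using h6),
    TrivSqZeroExt.inr_injective (R := ℤ) (by simpa using h5)⟩

/-- **Theorem.** For every abelian group `X` and all `(i, j) ≠ (0, 0)`, the elements `a_i` and
`x_j` of `G_X` generate an anti-torus. -/
theorem result {X : Type*} [AddCommGroup X] (i j : X) (hij : (i, j) ≠ (0, 0)) :
    GenAntiTorus (a i) (x j) := by
  intro p q hp hq h
  have key : a i ^ p.natAbs * x j ^ q.natAbs = x j ^ q.natAbs * a i ^ p.natAbs := by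
    have h' : Commute (a i ^ p) (x j ^ q) := h
    have h1 : Commute (a i ^ p.natAbs) (x j ^ q) := by
      rcases Int.natAbs_eq p with hp' | hp'
      · rw [hp', zpow_natCast] at h'
        exact h'
      · rw [hp', zpow_neg, zpow_natCast] at h'
        exact Commute.inv_left_iff.1 h'
    have h2 : Commute (a i ^ p.natAbs) (x j ^ q.natAbs) := by
      rcases Int.natAbs_eq q with hq' | hq'
      · rw [hq', zpow_natCast] at h1
        exact h1
      · rw [hq', zpow_neg, zpow_natCast] at h1
        exact Commute.inv_right_iff.1 h1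
    exact h2
  exact natural i j hij p.natAbs q.natAbs (Int.natAbs_ne_zero.2 hp) (Int.natAbs_ne_zero.2 hq) key

end Pool.Agent.Results.MP_216313_al.AntiTorus
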